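import Pool.Agent.helper57.DH.SpecL

set_option autoImplicit false

open Filter Topology MeasureTheory
open scoped commutatorElement

namespace Pool.Agent.helper90.DH

open Pool.Agent.helper64.D2

lemma FGA_PA {s r : ℕ} {f : ℝ → ℝ} (h : s ≤ r) (hf : PA s f) : PA r f := by
  intro k
  have hpos : (0 : ℤ) < 2 ^ (r - s) := by positivity
  obtain ⟨a, b, hab⟩ := hf (k / 2 ^ (r - s))
  refine ⟨a, b, fun x hx => hab x ?_⟩
  obtain ⟨h1, h2⟩ := hx
  have e : (2 : ℝ) ^ r = 2 ^ s * 2 ^ (r - s) := by rw [← pow_add]; congr 1; omega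
  have p1 : (0 : ℝ) < 2 ^ s := by positivity
  have p2 : (0 : ℝ) < 2 ^ (r - s) := by positivity
  have d1 : (k / 2 ^ (r - s)) * 2 ^ (r - s) ≤ k := Int.ediv_mul_le k hpos.ne'
  have d2 : k < (k / 2 ^ (r - s) + 1) * 2 ^ (r - s) := Int.lt_ediv_add_one_mul_self k hpos
  have d2' : k + 1 ≤ (k / 2 ^ (r - s) + 1) * 2 ^ (r - s) := d2
  have c1 : (((k / 2 ^ (r - s) : ℤ) : ℝ)) * 2 ^ (r - s) ≤ k := by exact_mod_cast d1
  have c2 : (k : ℝ) + 1 ≤ (((k / 2 ^ (r - s) : ℤ) : ℝ) + 1) * 2 ^ (r - s) := by exact_mod_cast d2'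
  constructor
  · refine le_trans ?_ h1
    rw [e, div_le_div_iff₀ p1 (by positivity)]
    calc ((k / 2 ^ (r - s) : ℤ) : ℝ) * (2 ^ s * 2 ^ (r - s)) = (((k / 2 ^ (r - s) : ℤ) : ℝ) * 2 ^ (r - s)) * 2 ^ s := by ring
      _ ≤ k * 2 ^ s := by exact mul_le_mul_of_nonneg_right c1 p1.le
  · refine lt_of_lt_of_le h2 ?_
    rw [e, div_le_div_iff₀ (by positivity) p1]
    calc ((k : ℝ) + 1) * 2 ^ s ≤ ((((k / 2 ^ (r - s) : ℤ) : ℝ) + 1) * 2 ^ (r - s)) * 2 ^ s := mul_le_mul_of_nonneg_right c2 p1.le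
      _ = (((k / 2 ^ (r - s) : ℤ) : ℝ) + 1) * (2 ^ s * 2 ^ (r - s)) := by ring

theorem FGA (hLIP : LIP_stmt) (hLYN : LYN_stmt) (hLSM : LSM_stmt) (hLBM : LBM_stmt) (hLCS : LCS_stmt) (hLLV : LLV_stmt) : FGA_stmt := by
  obtain ⟨C, hC1, hC⟩ := hLIP
  obtain ⟨K0, hK0, hK⟩ := hLSM C hC1
  refine ⟨2 * K0, by linarith, ?_⟩
  intro lam q c s0 N hlam hlam2 hs0 hSz hGAP f N' hN' hPA hS2 hEs
  obtain ⟨bA, bB, bC, bD, bE, bF⟩ := hLBM
  have hBM : BM f := bC N' f hPA (fun x hx => hS2 x (fun h => hx ⟨by linarith [h.1], by linarith [h.2]⟩))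
  obtain ⟨l1, l2, l3, l4⟩ := hLLV f hBM
  set M := max N' s0 with hM
  have hPAM : PA M f := FGA_PA (le_max_left _ _) hPA
  obtain ⟨hsum, hnsq⟩ := l3 s0 M (le_max_right _ _) hPAM hEs
  have hrN : ∀ r ∈ Finset.Ico s0 M, s0 ≤ r ∧ r < N := by
    intro r hr
    rw [Finset.mem_Ico] at hr
    refine ⟨hr.1, ?_⟩
    rcases le_total N' s0 with h | h
    · rw [hM, max_eq_right h] at hr; omega
    · rw [hM, max_eq_left h] at hr; omega
  have hg : ∀ r, BM (Mop q c (Ds r f)) := fun r => bF q c _ (l1 r).2.1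
  have hgi : ∀ r r', Integrable (fun x => Mop q c (Ds r f) x * Mop q c (Ds r' f) x) := fun r r' => by
    have := (bA _ _ (hg r) (hg r')).2.2
    exact (bB 1 _ this).2.2
  have hMop : ∀ x, Mop q c f x = ∑ r ∈ Finset.Ico s0 M, Mop q c (Ds r f) x := by
    intro x
    unfold Mop
    rw [← Finset.sum_div, Finset.sum_comm]
    congr 1
    exact Finset.sum_congr rfl (fun i _ => hsum _)
  have hnn : ∀ g : ℝ → ℝ, 0 ≤ nsq g := fun g => integral_nonneg (fun x => sq_nonneg _)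
  have hexp : nsq (Mop q c f) = ∑ r ∈ Finset.Ico s0 M, ∑ r' ∈ Finset.Ico s0 M, ∫ x, Mop q c (Ds r f) x * Mop q c (Ds r' f) x := by
    unfold nsq
    have e : (fun x => Mop q c f x ^ 2) = fun x => ∑ r ∈ Finset.Ico s0 M, ∑ r' ∈ Finset.Ico s0 M, Mop q c (Ds r f) x * Mop q c (Ds r' f) x := by
      funext x
      rw [hMop x, pow_two, Finset.sum_mul_sum]
    rw [e, integral_finset_sum _ (fun r _ => integrable_finset_sum _ (fun r' _ => hgi r r'))]
    exact Finset.sum_congr rfl (fun r _ => integral_finset_sum _ (fun r' _ => hgi r r'))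
  have hgap : ∀ r ∈ Finset.Ico s0 M, nsq (Mop q c (Ds r f)) ≤ lam ^ 2 * nsq (Ds r f) := by
    intro r hr
    obtain ⟨h1, h2⟩ := hrN r hr
    exact hGAP r h1 h2 _ (l1 r).1 ((l4 r (hs0.trans h1)).1 hS2) (l1 r).2.2
  have hpair : ∀ r ∈ Finset.Ico s0 M, ∀ r' ∈ Finset.Ico s0 M, ∫ x, Mop q c (Ds r f) x * Mop q c (Ds r' f) x ≤
      min (lam ^ 2) (C / 2 ^ (((r - r') + (r' - r)) / 4)) * (√(nsq (Ds r f)) * √(nsq (Ds r' f))) := by
    intro r hr r' hr'
    have n1 := hnn (Ds r f)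
    have n2 := hnn (Ds r' f)
    have A : |∫ x, Mop q c (Ds r f) x * Mop q c (Ds r' f) x| ≤ lam ^ 2 * (√(nsq (Ds r f)) * √(nsq (Ds r' f))) := by
      have h1 := hLCS.1 _ _ (hg r) (hg r')
      have h2 : nsq (Mop q c (Ds r f)) * nsq (Mop q c (Ds r' f)) ≤ (lam ^ 2 * nsq (Ds r f)) * (lam ^ 2 * nsq (Ds r' f)) :=
        mul_le_mul (hgap r hr) (hgap r' hr') (hnn _) (by positivity)
      have h3 : (lam ^ 2 * nsq (Ds r f)) * (lam ^ 2 * nsq (Ds r' f)) = (lam ^ 2 * (√(nsq (Ds r f)) * √(nsq (Ds r' f)))) ^ 2 := by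
        rw [mul_pow, mul_pow, Real.sq_sqrt n1, Real.sq_sqrt n2]; ring
      have h4 := h1.trans (h2.trans h3.le)
      exact abs_le_of_sq_le_sq h4 (by positivity)
    have B : |∫ x, Mop q c (Ds r f) x * Mop q c (Ds r' f) x| ≤ C / 2 ^ (((r - r') + (r' - r)) / 4) * (√(nsq (Ds r f)) * √(nsq (Ds r' f))) := by
      rcases le_total r r' with h | h
      · have h1 := hC q c (Ds r' f) (Ds r f) r' r hSz (l1 r').2.1 (l1 r).2.1 (l1 r').2.2 (l1 r).1 h
        have e1 : (r - r') + (r' - r) = r' - r := by omega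
        have e2 : (fun x => Mop q c (Ds r f) x * Mop q c (Ds r' f) x) = fun x => Mop q c (Ds r' f) x * Mop q c (Ds r f) x := by
          funext x; ring
        rw [e1, e2, mul_comm (√(nsq (Ds r f)))]
        exact h1
      · have h1 := hC q c (Ds r f) (Ds r' f) r r' hSz (l1 r).2.1 (l1 r').2.1 (l1 r).2.2 (l1 r').1 h
        have e1 : (r - r') + (r' - r) = r - r' := by omega
        rw [e1]
        exact h1
    refine (le_abs_self _).trans ?_
    rcases le_total (lam ^ 2) (C / 2 ^ (((r - r') + (r' - r)) / 4)) with h | h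
    · rw [min_eq_left h]; exact A
    · rw [min_eq_right h]; exact B
  have hw0 : ∀ k : ℕ, 0 ≤ min (lam ^ 2) (C / 2 ^ (k / 4)) := fun k => le_min (by positivity) (by positivity)
  have hY := (hLYN (fun k => min (lam ^ 2) (C / 2 ^ (k / 4))) (fun r => √(nsq (Ds r f))) (K0 * lam ^ 2 * Lg lam) (Finset.Ico s0 M) (Finset.Ico s0 M)
    hw0 (fun r => Real.sqrt_nonneg _) (fun n => (hK lam n hlam hlam2).2)).2
  have hs2 : ∑ r ∈ Finset.Ico s0 M, √(nsq (Ds r f)) ^ 2 = nsq f := by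
    rw [hnsq]
    exact Finset.sum_congr rfl (fun r _ => Real.sq_sqrt (hnn _))
  rw [hs2] at hY
  rw [hexp]
  refine (Finset.sum_le_sum (fun r hr => Finset.sum_le_sum (fun r' hr' => hpair r hr r' hr'))).trans ?_
  refine hY.trans (le_of_eq ?_)
  ring

end Pool.Agent.helper90.DH
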