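import Pool.Agent.helper57.DH.SpecL

set_option autoImplicit false

open Filter Topology MeasureTheory
open scoped commutatorElement

namespace Pool.Agent.helper90.DH

open Pool.Agent.helper64.D2

lemma LCS_int {f : ℝ → ℝ} (hf : BM f) : Integrable f := by
  obtain ⟨hm, ⟨B, hB⟩, h0⟩ := hf
  have hsupp : Function.support f ⊆ Set.Icc (0 : ℝ) 1 := by
    intro x hx
    by_contra h
    exact hx (h0 x h)
  rw [← integrableOn_iff_integrable_of_support_subset hsupp]
  refine Measure.integrableOn_of_bounded (M := B) (by simp) hm.aestronglyMeasurable ?_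
  exact Eventually.of_forall (fun x => by rw [Real.norm_eq_abs]; exact hB x)

lemma LCS_mul {f g : ℝ → ℝ} (hf : BM f) (hg : BM g) : BM (fun x => f x * g x) := by
  obtain ⟨hm, ⟨B, hB⟩, h0⟩ := hf
  obtain ⟨hm', ⟨B', hB'⟩, h0'⟩ := hg
  refine ⟨hm.mul hm', ⟨B * B', fun x => ?_⟩, fun x hx => by simp [h0 x hx]⟩
  rw [abs_mul]
  exact mul_le_mul (hB x) (hB' x) (abs_nonneg _) ((abs_nonneg _).trans (hB x))

lemma LCS_add {f g : ℝ → ℝ} (hf : BM f) (hg : BM g) : BM (fun x => f x + g x) := by
  obtain ⟨hm, ⟨B, hB⟩, h0⟩ := hf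
  obtain ⟨hm', ⟨B', hB'⟩, h0'⟩ := hg
  refine ⟨hm.add hm', ⟨B + B', fun x => ?_⟩, fun x hx => by simp [h0 x hx, h0' x hx]⟩
  exact (abs_add_le _ _).trans (add_le_add (hB x) (hB' x))

lemma LCS_nn (f : ℝ → ℝ) : 0 ≤ nsq f := integral_nonneg (fun x => sq_nonneg _)

lemma LCS_cs {f g : ℝ → ℝ} (hf : BM f) (hg : BM g) : (∫ x, f x * g x) ^ 2 ≤ nsq f * nsq g := by
  have h1 : ∀ t : ℝ, 0 ≤ nsq g * (t * t) + (2 * ∫ x, f x * g x) * t + nsq f := by
    intro t
    have h2 : 0 ≤ ∫ x, (f x + t * g x) ^ 2 := integral_nonneg (fun x => sq_nonneg _)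
    have h3 : (fun x => (f x + t * g x) ^ 2) = fun x => (f x * f x + (2 * t) * (f x * g x)) + (t * t) * (g x * g x) := by
      funext x; ring
    have i1 := LCS_int (LCS_mul hf hf)
    have i2 := (LCS_int (LCS_mul hf hg)).const_mul (2 * t)
    have i3 := (LCS_int (LCS_mul hg hg)).const_mul (t * t)
    have i12 : Integrable (fun x => f x * f x + (2 * t) * (f x * g x)) := i1.add i2
    rw [h3, integral_add i12 i3, integral_add i1 i2, integral_const_mul, integral_const_mul] at h2
    have e1 : nsq f = ∫ x, f x * f x := by unfold nsq; simp only [pow_two]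
    have e2 : nsq g = ∫ x, g x * g x := by unfold nsq; simp only [pow_two]
    rw [e1, e2]
    linarith
  have h4 := discrim_le_zero h1
  unfold discrim at h4
  nlinarith

lemma LCS_mink {f g : ℝ → ℝ} (hf : BM f) (hg : BM g) : √(nsq (fun x => f x + g x)) ≤ √(nsq f) + √(nsq g) := by
  have hc := LCS_cs hf hg
  have h1 : (∫ x, f x * g x) ≤ √(nsq f) * √(nsq g) := by
    rw [← Real.sqrt_mul (LCS_nn f)]
    exact Real.le_sqrt_of_sq_le hc
  rw [Real.sqrt_le_left (by positivity)]
  have h3 : nsq (fun x => f x + g x) = nsq f + 2 * (∫ x, f x * g x) + nsq g := by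
    have h3 : (fun x => (f x + g x) ^ 2) = fun x => (f x * f x + 2 * (f x * g x)) + (g x * g x) := by
      funext x; ring
    have i1 := LCS_int (LCS_mul hf hf)
    have i2 := (LCS_int (LCS_mul hf hg)).const_mul 2
    have i3 := LCS_int (LCS_mul hg hg)
    have i12 : Integrable (fun x => f x * f x + 2 * (f x * g x)) := i1.add i2
    have e0 : nsq (fun x => f x + g x) = ∫ x, (f x + g x) ^ 2 := rfl
    have e1 : nsq f = ∫ x, f x * f x := by unfold nsq; simp only [pow_two]
    have e2 : nsq g = ∫ x, g x * g x := by unfold nsq; simp only [pow_two]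
    rw [e0, h3, integral_add i12 i3, integral_add i1 i2, integral_const_mul, e1, e2]
  rw [h3]
  have s1 := Real.sq_sqrt (LCS_nn f)
  have s2 := Real.sq_sqrt (LCS_nn g)
  nlinarith

theorem LCS : LCS_stmt := by
  refine ⟨fun f g hf hg => LCS_cs hf hg, fun f g hf hg => LCS_mink hf hg, ?_, ?_, ?_⟩
  · intro I f hI
    classical
    have key : BM (fun x => ∑ i ∈ I, f i x) ∧ √(nsq (fun x => ∑ i ∈ I, f i x)) ≤ ∑ i ∈ I, √(nsq (f i)) := by
      induction I using Finset.induction_on with
      | empty =>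
        refine ⟨⟨by simp, ⟨0, fun x => by simp⟩, fun x _ => by simp⟩, ?_⟩
        simp [nsq]
      | insert a s ha ih =>
        obtain ⟨h1, h2⟩ := ih (fun i hi => hI i (Finset.mem_insert_of_mem hi))
        have ha' := hI a (Finset.mem_insert_self a s)
        have e : (fun x => ∑ i ∈ insert a s, f i x) = fun x => f a x + ∑ i ∈ s, f i x := by
          funext x; rw [Finset.sum_insert ha]
        rw [e, Finset.sum_insert ha]
        refine ⟨LCS_add ha' h1, ?_⟩
        have := LCS_mink ha' h1
        linarith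
    exact key.2
  · intro f g hf hg h
    unfold nsq
    have i1 : Integrable (fun x => f x ^ 2) := by
      simpa only [pow_two] using LCS_int (LCS_mul hf hf)
    have i2 : Integrable (fun x => g x ^ 2) := by
      simpa only [pow_two] using LCS_int (LCS_mul hg hg)
    exact integral_mono i1 i2 (fun x => sq_le_sq.mpr (h x))
  · intro a f
    unfold nsq
    simp only [mul_pow]
    rw [integral_const_mul]

end Pool.Agent.helper90.DH
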