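import Pool.Agent.helper57.DH.SpecL

set_option autoImplicit false

open Filter Topology MeasureTheory
open scoped commutatorElement

namespace Pool.Agent.helper90.DH

open Pool.Agent.helper64.D2

lemma LJV_lip (c : DD) (h : Sz c (1 / 100)) (x y : ℝ) : |ev c x - ev c y| ≤ 51 / 50 * |x - y| := by
  have hcd := ev_contDiff c
  have hcd1 : ContDiff ℝ 1 (deriv (ev c)) := by
    have h2 : ContDiff ℝ (1 + 1) (ev c) := by
      norm_num
      exact hcd
    exact (contDiff_succ_iff_deriv.1 h2).2.2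
  have hd : Differentiable ℝ (ev c) := hcd.differentiable (by norm_num)
  have hd1 : Differentiable ℝ (deriv (ev c)) := hcd1.differentiable (by norm_num)
  have h1 : ∀ z, z < 0 → deriv (ev c) z = 1 := by
    intro z hz
    have h3 : ev c =ᶠ[𝓝 z] id := by
      filter_upwards [isOpen_Iio.mem_nhds hz] with w hw
      exact ev_out c w (fun h => absurd h.1 (not_lt.2 (le_of_lt hw)))
    rw [h3.deriv_eq]; simp
  have h2 : ∀ z, 1 < z → deriv (ev c) z = 1 := by
    intro z hz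
    have h3 : ev c =ᶠ[𝓝 z] id := by
      filter_upwards [isOpen_Ioi.mem_nhds hz] with w hw
      exact ev_out c w (fun h => absurd h.2 (not_lt.2 (le_of_lt hw)))
    rw [h3.deriv_eq]; simp
  have h0 : deriv (ev c) 0 = 1 := by
    have hc : IsClosed {z : ℝ | deriv (ev c) z = 1} := isClosed_eq hcd1.continuous continuous_const
    have h4 : Set.Iic (0 : ℝ) ⊆ {z : ℝ | deriv (ev c) z = 1} := by
      rw [← closure_Iio (α := ℝ)]
      exact closure_minimal (fun z hz => h1 z hz) hc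
    exact h4 (Set.mem_Iic.2 le_rfl)
  have hb : ∀ z, |deriv (ev c) z - 1| ≤ 1 / 100 := by
    intro z
    rcases lt_or_ge z 0 with h3 | h3
    · rw [h1 z h3]; norm_num
    · rcases lt_or_ge 1 z with h4 | h4
      · rw [h2 z h4]; norm_num
      · have h5 := convex_univ.norm_image_sub_le_of_norm_deriv_le (f := deriv (ev c)) (C := 1 / 100)
          (fun y _ => hd1 y) (fun y _ => by
            rw [Real.norm_eq_abs]
            exact h y) (Set.mem_univ 0) (Set.mem_univ z)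
        rw [h0, sub_zero, Real.norm_eq_abs, Real.norm_eq_abs, abs_of_nonneg h3] at h5
        linarith
  have h6 := convex_univ.norm_image_sub_le_of_norm_deriv_le (f := ev c) (C := 51 / 50)
    (fun y _ => hd y) (fun y _ => by
      rw [Real.norm_eq_abs]
      have := abs_le.1 (hb y)
      rw [abs_le]
      constructor <;> linarith [this.1, this.2]) (Set.mem_univ y) (Set.mem_univ x)
  rwa [Real.norm_eq_abs, Real.norm_eq_abs] at h6

lemma LJV_ci {r n : ℕ} (h : r ≤ n) (x : ℝ) : ci r x = ci n x / 2 ^ (n - r) := by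
  have hpos : (0 : ℤ) < 2 ^ (n - r) := by positivity
  have e : (2 : ℝ) ^ n = 2 ^ r * 2 ^ (n - r) := by rw [← pow_add]; congr 1; omega
  have p2 : (0 : ℝ) < 2 ^ (n - r) := by positivity
  unfold ci
  set m := ⌊(2 : ℝ) ^ n * x⌋ with hm
  have a1 : (m : ℝ) ≤ 2 ^ n * x := Int.floor_le _
  have a2 : (2 : ℝ) ^ n * x < m + 1 := Int.lt_floor_add_one _
  have d1 : (m / 2 ^ (n - r)) * 2 ^ (n - r) ≤ m := Int.ediv_mul_le m hpos.ne'
  have d2 : m < (m / 2 ^ (n - r) + 1) * 2 ^ (n - r) := Int.lt_ediv_add_one_mul_self m hpos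
  have d2' : m + 1 ≤ (m / 2 ^ (n - r) + 1) * 2 ^ (n - r) := d2
  have c1 : (((m / 2 ^ (n - r) : ℤ) : ℝ)) * 2 ^ (n - r) ≤ m := by exact_mod_cast d1
  have c2 : (m : ℝ) + 1 ≤ (((m / 2 ^ (n - r) : ℤ) : ℝ) + 1) * 2 ^ (n - r) := by exact_mod_cast d2'
  rw [Int.floor_eq_iff]
  rw [e] at a1 a2
  constructor
  · have : ((m / 2 ^ (n - r) : ℤ) : ℝ) * 2 ^ (n - r) ≤ (2 ^ r * x) * 2 ^ (n - r) := by
      refine c1.trans (a1.trans (le_of_eq ?_)); ring
    exact le_of_mul_le_mul_right this p2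
  · have : (2 ^ r * x) * 2 ^ (n - r) < (((m / 2 ^ (n - r) : ℤ) : ℝ) + 1) * 2 ^ (n - r) := by
      refine lt_of_lt_of_le (lt_of_eq_of_lt ?_ a2) c2; ring
    exact lt_of_mul_lt_mul_right this p2.le

lemma LJV_ci_add (n : ℕ) (x : ℝ) : ci n (x + 1 / 2 ^ n) = ci n x + 1 := by
  unfold ci
  have : (2 : ℝ) ^ n * (x + 1 / 2 ^ n) = 2 ^ n * x + 1 := by
    rw [mul_add, mul_one_div_cancel (by positivity)]
  rw [this, Int.floor_add_one]

lemma LJV_ci_sub (n : ℕ) (x : ℝ) : ci n (x - 1 / 2 ^ n) = ci n x - 1 := by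
  unfold ci
  have : (2 : ℝ) ^ n * (x - 1 / 2 ^ n) = 2 ^ n * x - 1 := by
    rw [mul_sub, mul_one_div_cancel (by positivity)]
  rw [this, Int.floor_sub_one]

lemma LJV_Bg {r : ℕ} {f : ℝ → ℝ} {x y : ℝ} (h : ci r x = ci r y) : Bg r f x = Bg r f y := by
  unfold Bg mid
  rw [h]

lemma LJV_Bg_nn (r : ℕ) (f : ℝ → ℝ) (x : ℝ) : 0 ≤ Bg r f x := by
  unfold Bg; positivity

lemma LJV_loc {s e : ℕ} (he : 2 ≤ e) {f : ℝ → ℝ} {x y : ℝ} (h : ci (s + e) x = ci (s + e) y) : JV s e f x = JV s e f y := by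
  have h1 : ∀ a b : ℝ, ci (s + e) a = ci (s + e) b → Bg (s + 1) f a = Bg (s + 1) f b := fun a b hab => by
    apply LJV_Bg
    rw [LJV_ci (by omega : s + 1 ≤ s + e) a, LJV_ci (by omega : s + 1 ≤ s + e) b, hab]
  unfold JV
  rw [h, h1 x y h, h1 (x - 1 / 2 ^ (s + e)) (y - 1 / 2 ^ (s + e)) (by rw [LJV_ci_sub, LJV_ci_sub, h]),
    h1 (x + 1 / 2 ^ (s + e)) (y + 1 / 2 ^ (s + e)) (by rw [LJV_ci_add, LJV_ci_add, h])]

lemma LJV_cell {n : ℕ} {k : ℤ} {x : ℝ} : x ∈ cell n k ↔ ci n x = k := by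
  unfold cell ci
  rw [Int.floor_eq_iff, Set.mem_Ico, div_le_iff₀ (by positivity), lt_div_iff₀ (by positivity), mul_comm x]

lemma LJV_nn (s e : ℕ) (f : ℝ → ℝ) (x : ℝ) : 0 ≤ JV s e f x := by
  unfold JV
  have h1 := LJV_Bg_nn (s + 1) f x
  have h2 := LJV_Bg_nn (s + 1) f (x - 1 / 2 ^ (s + e))
  have h3 := LJV_Bg_nn (s + 1) f (x + 1 / 2 ^ (s + e))
  split_ifs <;> linarith

/-- the support of `JV` is near the grid. -/
lemma LJV_gr {s e : ℕ} (he : 2 ≤ e) {x : ℝ} (h : (2 : ℤ) ^ (e - 1) ∣ ci (s + e) x ∨ (2 : ℤ) ^ (e - 1) ∣ ci (s + e) x + 1) :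
    ∃ k : ℤ, |x - (k : ℝ) / 2 ^ (s + 1)| ≤ 1 / 2 ^ (s + e) := by
  have e1 : (2 : ℝ) ^ (s + e) = 2 ^ (s + 1) * 2 ^ (e - 1) := by rw [← pow_add]; congr 1; omega
  have a1 : ((ci (s + e) x : ℤ) : ℝ) ≤ 2 ^ (s + e) * x := Int.floor_le _
  have a2 : (2 : ℝ) ^ (s + e) * x < (ci (s + e) x : ℤ) + 1 := Int.lt_floor_add_one _
  have p : (0 : ℝ) < 2 ^ (s + e) := by positivity
  have p1 : (0 : ℝ) < 2 ^ (s + 1) := by positivity
  have p2 : (0 : ℝ) < 2 ^ (e - 1) := by positivity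
  have key : ∀ k : ℤ, |(2 : ℝ) ^ (s + e) * x - 2 ^ (e - 1) * k| ≤ 1 → |x - (k : ℝ) / 2 ^ (s + 1)| ≤ 1 / 2 ^ (s + e) := by
    intro k hk
    have h2 : (2 : ℝ) ^ (s + e) * x - 2 ^ (e - 1) * k = 2 ^ (s + e) * (x - (k : ℝ) / 2 ^ (s + 1)) := by
      rw [e1]; field_simp
    rw [h2, abs_mul, abs_of_pos p] at hk
    rw [le_div_iff₀ p]; linarith
  rcases h with ⟨k, hk⟩ | ⟨k, hk⟩
  · refine ⟨k, key k ?_⟩
    have hk' : ((ci (s + e) x : ℤ) : ℝ) = 2 ^ (e - 1) * k := by rw [hk]; push_cast; ring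
    rw [abs_le]; constructor <;> linarith
  · refine ⟨k, key k ?_⟩
    have hk' : ((ci (s + e) x : ℤ) : ℝ) + 1 = 2 ^ (e - 1) * k := by
      have : ((ci (s + e) x + 1 : ℤ) : ℝ) = 2 ^ (e - 1) * k := by rw [hk]; push_cast; ring
      rw [← this]; push_cast; ring
    rw [abs_le]; constructor <;> linarith

lemma LJV_supp {s : ℕ} (hs : 10 ≤ s) {f : ℝ → ℝ} (hf : S3 f) {y : ℝ} (hy : y ∉ Set.Icc (239 / 1000 : ℝ) (761 / 1000)) : Bg (s + 1) f y = 0 := by
  have p1 : (0 : ℝ) < 2 ^ (s + 1) := by positivity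
  have h2 : (2048 : ℝ) ≤ 2 ^ (s + 1) := by
    calc (2048 : ℝ) = 2 ^ 11 := by norm_num
      _ ≤ 2 ^ (s + 1) := pow_le_pow_right₀ (by norm_num) (by omega)
  have h3 : (1 : ℝ) / 2 ^ (s + 1) ≤ 1 / 2048 := by
    rw [div_le_div_iff₀ p1 (by norm_num)]; linarith
  have a1 : ((ci (s + 1) y : ℤ) : ℝ) / 2 ^ (s + 1) ≤ y := by
    rw [div_le_iff₀ p1, mul_comm]; exact Int.floor_le _
  have a2 : y < ((ci (s + 1) y : ℤ) : ℝ) / 2 ^ (s + 1) + 1 / 2 ^ (s + 1) := by
    rw [← add_div, lt_div_iff₀ p1, mul_comm]; exact Int.lt_floor_add_one _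
  have m1 : mid (s + 1) y = ((ci (s + 1) y : ℤ) : ℝ) / 2 ^ (s + 1) + 1 / 2 * (1 / 2 ^ (s + 1)) := by
    unfold mid; field_simp
  have q0 : (0 : ℝ) < 1 / 2 ^ (s + 1) := by positivity
  have out : ∀ z : ℝ, |z - y| ≤ 1 / 2048 → f z = 0 := by
    intro z hz
    apply hf
    intro hz2
    apply hy
    have := abs_le.1 hz
    constructor
    · linarith [hz2.1, this.1, this.2]
    · linarith [hz2.2, this.1, this.2]
  have z1 : f (((ci (s + 1) y : ℤ) : ℝ) / 2 ^ (s + 1)) = 0 := by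
    apply out; rw [abs_le]; constructor <;> linarith
  have z2 : f (mid (s + 1) y) = 0 := by
    apply out; rw [m1, abs_le]; constructor <;> linarith
  unfold Bg
  rw [z1, z2]; simp

lemma LJV_S4 {s e : ℕ} (hs : 10 ≤ s) (he : 2 ≤ e) {f : ℝ → ℝ} (hf : S3 f) : S4 (JV s e f) := by
  intro x hx
  have p1 : (0 : ℝ) < 2 ^ (s + e) := by positivity
  have h2 : (4096 : ℝ) ≤ 2 ^ (s + e) := by
    calc (4096 : ℝ) = 2 ^ 12 := by norm_num
      _ ≤ 2 ^ (s + e) := pow_le_pow_right₀ (by norm_num) (by omega)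
  have h3 : (1 : ℝ) / 2 ^ (s + e) ≤ 1 / 4096 := by
    rw [div_le_div_iff₀ p1 (by norm_num)]; linarith
  have q0 : (0 : ℝ) < 1 / 2 ^ (s + e) := by positivity
  have out : ∀ z : ℝ, |z - x| ≤ 1 / 4096 → Bg (s + 1) f z = 0 := by
    intro z hz
    apply LJV_supp hs hf
    intro hz2
    apply hx
    have := abs_le.1 hz
    constructor
    · linarith [hz2.1, this.1, this.2]
    · linarith [hz2.2, this.1, this.2]
  unfold JV
  rw [out x (by simp), out (x - 1 / 2 ^ (s + e)) (by rw [abs_le]; constructor <;> linarith),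
    out (x + 1 / 2 ^ (s + e)) (by rw [abs_le]; constructor <;> linarith)]
  simp

lemma LJV_PA {s e : ℕ} (he : 2 ≤ e) (f : ℝ → ℝ) : PA (s + e) (JV s e f) := by
  intro k
  refine ⟨JV s e f ((k : ℝ) / 2 ^ (s + e)), 0, fun x hx => ?_⟩
  rw [zero_mul, add_zero]
  apply LJV_loc he
  rw [LJV_cell.1 hx]
  symm
  rw [← LJV_cell]
  unfold cell
  refine ⟨le_rfl, ?_⟩
  rw [div_lt_div_iff_of_pos_right (by positivity)]
  linarith

/-- pointwise comparison. -/
lemma LJV_pt {s e : ℕ} (he : 2 ≤ e) {f : ℝ → ℝ} (hPA : PA (s + 1) f) (hLEN : LEN_stmt) {B : ℝ} (hB : ∀ x, |f x| ≤ B) (z z' : ℝ) (hz : |z - z'| ≤ 1 / 2 ^ (s + e)) :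
    |fr s z * f z - fr s z' * f z'| ≤ JV s e f z' + 5 * B / 2 ^ e := by
  have hB0 : 0 ≤ B := (abs_nonneg _).trans (hB 0)
  obtain ⟨n1, -, -, n4⟩ := hLEN (s + 1) f hPA
  obtain ⟨n5, n6⟩ := n4 B hB
  have fr01 : ∀ t, 0 ≤ fr s t ∧ fr s t ≤ 1 := fun t => ⟨Int.fract_nonneg _, (Int.fract_lt_one _).le⟩
  have pe : (0 : ℝ) < 2 ^ e := by positivity
  have ps : (0 : ℝ) < 2 ^ s := by positivity
  have pse : (0 : ℝ) < 2 ^ (s + e) := by positivity
  have e1 : (2 : ℝ) ^ (s + e) = 2 ^ (s + 1) * 2 ^ (e - 1) := by rw [← pow_add]; congr 1; omega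
  have hJ0 := LJV_nn s e f z'
  by_cases hc : ci (s + 1) z = ci (s + 1) z'
  · have hcs : ci s z = ci s z' := by
      rw [LJV_ci (Nat.le_succ s) z, LJV_ci (Nat.le_succ s) z', hc]
    have hfr : fr s z - fr s z' = 2 ^ s * (z - z') := by
      have h1 : fr s z = 2 ^ s * z - ci s z := rfl
      have h2 : fr s z' = 2 ^ s * z' - ci s z' := rfl
      rw [h1, h2, hcs]; ring
    have h3 : fr s z * f z - fr s z' * f z' = (fr s z - fr s z') * f z + fr s z' * (f z - f z') := by ring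
    have h4 : |fr s z * f z - fr s z' * f z'| ≤ 2 ^ s * |z - z'| * B + 1 * (2 * 2 ^ (s + 1) * B * |z - z'|) := by
      rw [h3]
      refine (abs_add_le _ _).trans (add_le_add ?_ ?_)
      · rw [abs_mul, hfr, abs_mul, abs_of_pos ps]
        exact mul_le_mul_of_nonneg_left (hB z) (by positivity)
      · rw [abs_mul, abs_of_nonneg (fr01 z').1]
        exact mul_le_mul (fr01 z').2 (n6 z z' hc) (abs_nonneg _) zero_le_one
    have h5 : 2 ^ s * |z - z'| * B + 1 * (2 * 2 ^ (s + 1) * B * |z - z'|) = 5 * B * (2 ^ s * |z - z'|) := by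
      rw [pow_succ]; ring
    have h6 : (2 : ℝ) ^ s * |z - z'| ≤ 1 / 2 ^ e := by
      rw [le_div_iff₀ pe]
      rw [le_div_iff₀ pse, pow_add] at hz
      linarith
    have h7 : 5 * B * ((2 : ℝ) ^ s * |z - z'|) ≤ 5 * B * (1 / 2 ^ e) := mul_le_mul_of_nonneg_left h6 (by positivity)
    have h8 : 5 * B * (1 / 2 ^ e) = 5 * B / 2 ^ e := by ring
    linarith
  · -- different cells
    have hv : ∀ t, |fr s t * f t| ≤ Bg (s + 1) f t := by
      intro t
      rw [abs_mul, abs_of_nonneg (fr01 t).1]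
      calc fr s t * |f t| ≤ 1 * |f t| := mul_le_mul_of_nonneg_right (fr01 t).2 (abs_nonneg _)
        _ = |f t| := one_mul _
        _ ≤ _ := n1 t
    have hdiff : |fr s z * f z - fr s z' * f z'| ≤ Bg (s + 1) f z + Bg (s + 1) f z' :=
      (abs_sub _ _).trans (add_le_add (hv z) (hv z'))
    have hz1 : |(2 : ℝ) ^ (s + e) * z - 2 ^ (s + e) * z'| ≤ 1 := by
      rw [← mul_sub, abs_mul, abs_of_pos pse]
      rw [le_div_iff₀ pse] at hz; linarith
    have hz2 := abs_le.1 hz1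
    have a1 : ((ci (s + 1) z : ℤ) : ℝ) ≤ 2 ^ (s + 1) * z := Int.floor_le _
    have a2 : (2 : ℝ) ^ (s + 1) * z < (ci (s + 1) z : ℤ) + 1 := Int.lt_floor_add_one _
    have b1 : ((ci (s + 1) z' : ℤ) : ℝ) ≤ 2 ^ (s + 1) * z' := Int.floor_le _
    have b2 : (2 : ℝ) ^ (s + 1) * z' < (ci (s + 1) z' : ℤ) + 1 := Int.lt_floor_add_one _
    have p2 : (0 : ℝ) < 2 ^ (e - 1) := by positivity
    have hb0 := LJV_Bg_nn (s + 1) f (z' - 1 / 2 ^ (s + e))
    have hb1 := LJV_Bg_nn (s + 1) f (z' + 1 / 2 ^ (s + e))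
    have h5B : 0 ≤ 5 * B / 2 ^ e := by positivity
    have hej : s + e - (s + 1) = e - 1 := by omega
    rcases lt_or_gt_of_ne hc with hlt | hgt
    · -- z is left of z'
      have hle : (ci (s + 1) z : ℤ) + 1 ≤ ci (s + 1) z' := hlt
      have hle' : ((ci (s + 1) z : ℤ) : ℝ) + 1 ≤ ((ci (s + 1) z' : ℤ) : ℝ) := by exact_mod_cast hle
      -- ci (s+e) z' = 2^(e-1) * ci (s+1) z'
      have hzlt : (2 : ℝ) ^ (s + e) * z < 2 ^ (e - 1) * (ci (s + 1) z' : ℤ) := by
        rw [e1]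
        calc (2 : ℝ) ^ (s + 1) * 2 ^ (e - 1) * z = 2 ^ (e - 1) * (2 ^ (s + 1) * z) := by ring
          _ < 2 ^ (e - 1) * ((ci (s + 1) z : ℤ) + 1) := mul_lt_mul_of_pos_left a2 p2
          _ ≤ _ := mul_le_mul_of_nonneg_left hle' p2.le
      have hzge' : (2 : ℝ) ^ (e - 1) * (ci (s + 1) z' : ℤ) ≤ 2 ^ (s + e) * z' := by
        rw [e1]
        calc (2 : ℝ) ^ (e - 1) * (ci (s + 1) z' : ℤ) ≤ 2 ^ (e - 1) * (2 ^ (s + 1) * z') := mul_le_mul_of_nonneg_left b1 p2.le
          _ = _ := by ring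
      have hc1 : ci (s + e) z' = 2 ^ (e - 1) * ci (s + 1) z' := by
        unfold ci
        rw [Int.floor_eq_iff]
        push_cast
        constructor
        · exact hzge'
        · have : ((⌊(2 : ℝ) ^ (s + 1) * z'⌋ : ℤ) : ℝ) = ((ci (s + 1) z' : ℤ) : ℝ) := rfl
          rw [this]
          linarith [hz2.1]
      have hc2 : ci (s + e) z = 2 ^ (e - 1) * ci (s + 1) z' - 1 := by
        show ⌊(2 : ℝ) ^ (s + e) * z⌋ = _
        rw [Int.floor_eq_iff]
        push_cast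
        constructor
        · linarith [hz2.1]
        · linarith
      have hcond : (2 : ℤ) ^ (e - 1) ∣ ci (s + e) z' ∨ (2 : ℤ) ^ (e - 1) ∣ ci (s + e) z' + 1 := Or.inl ⟨_, hc1⟩
      have hBz : Bg (s + 1) f z = Bg (s + 1) f (z' - 1 / 2 ^ (s + e)) := by
        apply LJV_Bg
        rw [LJV_ci (by omega : s + 1 ≤ s + e) z, LJV_ci (by omega : s + 1 ≤ s + e) (z' - 1 / 2 ^ (s + e)), LJV_ci_sub, hc1, hc2]
      unfold JV
      rw [if_pos hcond, ← hBz]
      linarith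
    · have hle : (ci (s + 1) z' : ℤ) + 1 ≤ ci (s + 1) z := hgt
      have hle' : ((ci (s + 1) z' : ℤ) : ℝ) + 1 ≤ ((ci (s + 1) z : ℤ) : ℝ) := by exact_mod_cast hle
      have hzlt : (2 : ℝ) ^ (s + e) * z' < 2 ^ (e - 1) * (ci (s + 1) z : ℤ) := by
        rw [e1]
        calc (2 : ℝ) ^ (s + 1) * 2 ^ (e - 1) * z' = 2 ^ (e - 1) * (2 ^ (s + 1) * z') := by ring
          _ < 2 ^ (e - 1) * ((ci (s + 1) z' : ℤ) + 1) := mul_lt_mul_of_pos_left b2 p2
          _ ≤ _ := mul_le_mul_of_nonneg_left hle' p2.le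
      have hzge' : (2 : ℝ) ^ (e - 1) * (ci (s + 1) z : ℤ) ≤ 2 ^ (s + e) * z := by
        rw [e1]
        calc (2 : ℝ) ^ (e - 1) * (ci (s + 1) z : ℤ) ≤ 2 ^ (e - 1) * (2 ^ (s + 1) * z) := mul_le_mul_of_nonneg_left a1 p2.le
          _ = _ := by ring
      have hc1 : ci (s + e) z = 2 ^ (e - 1) * ci (s + 1) z := by
        show ⌊(2 : ℝ) ^ (s + e) * z⌋ = _
        rw [Int.floor_eq_iff]
        push_cast
        constructor
        · exact hzge'
        · linarith [hz2.2]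
      have hc2 : ci (s + e) z' = 2 ^ (e - 1) * ci (s + 1) z - 1 := by
        show ⌊(2 : ℝ) ^ (s + e) * z'⌋ = _
        rw [Int.floor_eq_iff]
        push_cast
        constructor
        · linarith [hz2.2]
        · linarith
      have hcond : (2 : ℤ) ^ (e - 1) ∣ ci (s + e) z' ∨ (2 : ℤ) ^ (e - 1) ∣ ci (s + e) z' + 1 :=
        Or.inr ⟨ci (s + 1) z, by rw [hc2]; ring⟩
      have hBz : Bg (s + 1) f z = Bg (s + 1) f (z' + 1 / 2 ^ (s + e)) := by
        apply LJV_Bg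
        rw [LJV_ci (by omega : s + 1 ≤ s + e) z, LJV_ci (by omega : s + 1 ≤ s + e) (z' + 1 / 2 ^ (s + e)), LJV_ci_add, hc1, hc2]
        congr 1; ring
      unfold JV
      rw [if_pos hcond, ← hBz]
      linarith

lemma LJV_Gm (r : ℕ) (ρ : ℝ) : MeasurableSet (Gr r ρ) := by
  have : Gr r ρ = ⋃ k : ℤ, {x : ℝ | |x - (k : ℝ) / 2 ^ r| ≤ ρ} := by
    ext x; simp [Gr]
  rw [this]
  exact MeasurableSet.iUnion (fun k => measurableSet_le (by fun_prop) measurable_const)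

lemma LJV_en {s e : ℕ} (he : 2 ≤ e) {f : ℝ → ℝ} (hPA : PA (s + 1) f) (hBM : BM f) (hLEN : LEN_stmt) (hLBM : LBM_stmt) (hJ : BM (JV s e f)) :
    nsq (JV s e f) ≤ 2592 / 2 ^ e * nsq f := by
  obtain ⟨bA, bB, bC, bD, bE, bF⟩ := hLBM
  obtain ⟨n1, -, n3, n4⟩ := hLEN (s + 1) f hPA
  obtain ⟨g1, g2, g3, g4⟩ := n3 hBM
  have pse : (0 : ℝ) < 2 ^ (s + e) := by positivity
  have pe : (0 : ℝ) < 2 ^ e := by positivity
  set δ : ℝ := 1 / 2 ^ (s + e) with hδ
  have hδ0 : 0 < δ := by positivity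
  set h : ℝ → ℝ := (Gr (s + 1) (2 * δ)).indicator (fun z => Bg (s + 1) f z ^ 2) with hh
  have hB2 : Integrable (fun z => Bg (s + 1) f z ^ 2) := by
    have h1 := (bA _ _ g1 g1).2.2
    have h2 := (bB 1 _ h1).2.2
    simpa only [pow_two] using h2
  have hint : Integrable h := hB2.indicator (LJV_Gm _ _)
  have hint1 : Integrable (fun x => h (x - δ)) := hint.comp_sub_right δ
  have hint2 : Integrable (fun x => h (x + δ)) := hint.comp_add_right δ
  have hnn : ∀ x, 0 ≤ h x := fun x => Set.indicator_nonneg (fun z _ => sq_nonneg _) x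
  have e1 : ∫ x, h (x - δ) = ∫ x, h x := integral_sub_right_eq_self h δ
  have e2 : ∫ x, h (x + δ) = ∫ x, h x := integral_add_right_eq_self h δ
  have hI : ∫ x, h x ≤ 288 / 2 ^ e * nsq f := by
    have h1 := g4 (2 * δ) (by positivity)
    refine h1.trans (le_of_eq ?_)
    rw [hδ, pow_add, pow_succ]
    field_simp
    ring
  have hpt : ∀ x, JV s e f x ^ 2 ≤ 3 * (h x + h (x - δ) + h (x + δ)) := by
    intro x
    by_cases hc : (2 : ℤ) ^ (e - 1) ∣ ci (s + e) x ∨ (2 : ℤ) ^ (e - 1) ∣ ci (s + e) x + 1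
    · obtain ⟨k, hk⟩ := LJV_gr he hc
      have m0 : x ∈ Gr (s + 1) (2 * δ) := ⟨k, hk.trans (by linarith)⟩
      have m1 : x - δ ∈ Gr (s + 1) (2 * δ) := by
        refine ⟨k, ?_⟩
        have := abs_le.1 hk
        rw [abs_le]; constructor <;> linarith [this.1, this.2]
      have m2 : x + δ ∈ Gr (s + 1) (2 * δ) := by
        refine ⟨k, ?_⟩
        have := abs_le.1 hk
        rw [abs_le]; constructor <;> linarith [this.1, this.2]
      rw [hh, Set.indicator_of_mem m0, Set.indicator_of_mem m1, Set.indicator_of_mem m2]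
      have : JV s e f x = Bg (s + 1) f x + Bg (s + 1) f (x - δ) + Bg (s + 1) f (x + δ) := by
        unfold JV; rw [if_pos hc]
      rw [this]
      nlinarith [sq_nonneg (Bg (s + 1) f x - Bg (s + 1) f (x - δ)), sq_nonneg (Bg (s + 1) f x - Bg (s + 1) f (x + δ)), sq_nonneg (Bg (s + 1) f (x - δ) - Bg (s + 1) f (x + δ))]
    · have : JV s e f x = 0 := by
        unfold JV; rw [if_neg hc]
      rw [this]
      have v1 := hnn x
      have v2 := hnn (x - δ)
      have v3 := hnn (x + δ)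
      have v4 : (0 : ℝ) ^ 2 = 0 := by norm_num
      rw [v4]
      linarith
  have hJ2 : Integrable (fun x => JV s e f x ^ 2) := by
    have h1 := (bA _ _ hJ hJ).2.2
    have h2 := (bB 1 _ h1).2.2
    simpa only [pow_two] using h2
  have hsum : Integrable (fun x => 3 * (h x + h (x - δ) + h (x + δ))) := ((hint.add hint1).add hint2).const_mul 3
  have hmono := integral_mono hJ2 hsum hpt
  have hval : ∫ x, 3 * (h x + h (x - δ) + h (x + δ)) = 9 * ∫ x, h x := by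
    rw [integral_const_mul]
    have i1 : Integrable (fun x => h x + h (x - δ)) := hint.add hint1
    rw [integral_add i1 hint2, integral_add hint hint1, e1, e2]
    ring
  rw [hval] at hmono
  have : nsq (JV s e f) = ∫ x, JV s e f x ^ 2 := rfl
  rw [this]
  refine hmono.trans ?_
  refine (mul_le_mul_of_nonneg_left hI (by norm_num : (0 : ℝ) ≤ 9)).trans (le_of_eq ?_)
  ring

lemma LJV_Es {s e : ℕ} (he : 2 ≤ e) {f : ℝ → ℝ} (hPA : PA (s + 1) f) (hLEN : LEN_stmt) (hLEB : LEB_stmt) (hLBM : LBM_stmt) (hJ : BM (JV s e f)) {B : ℝ} (hB : ∀ x, |f x| ≤ B) (x : ℝ) :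
    |Es s (JV s e f) x| ≤ 216 * B / 2 ^ e := by
  have hB0 : 0 ≤ B := (abs_nonneg _).trans (hB 0)
  obtain ⟨bA, bB, bC, bD, bE, bF⟩ := hLBM
  obtain ⟨n1, -, n3, n4⟩ := hLEN (s + 1) f hPA
  obtain ⟨n5, -⟩ := n4 B hB
  have pse : (0 : ℝ) < 2 ^ (s + e) := by positivity
  have ps : (0 : ℝ) < 2 ^ s := by positivity
  have ps1 : (0 : ℝ) < 2 ^ (s + 1) := by positivity
  have pe : (0 : ℝ) < 2 ^ e := by positivity
  set δ : ℝ := 1 / 2 ^ (s + e) with hδ
  have hδ0 : 0 < δ := by positivity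
  have hJB : ∀ t, |JV s e f t| ≤ 9 * B := by
    intro t
    rw [abs_of_nonneg (LJV_nn _ _ _ _)]
    unfold JV
    have h1 := n5 t
    have h2 := n5 (t - 1 / 2 ^ (s + e))
    have h3 := n5 (t + 1 / 2 ^ (s + e))
    split_ifs <;> linarith
  set k := ci s x with hk
  set I : ℕ → Set ℝ := fun j => Set.Icc ((2 * (k : ℝ) + j) / 2 ^ (s + 1) - δ) ((2 * (k : ℝ) + j) / 2 ^ (s + 1) + δ) with hI
  set φ : ℝ → ℝ := fun t => ∑ j ∈ Finset.range 3, (I j).indicator (fun _ => 9 * B) t with hφ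
  have hφi : ∀ j, Integrable ((I j).indicator (fun _ : ℝ => 9 * B)) := fun j =>
    (integrable_indicator_iff measurableSet_Icc).2 (integrableOn_const (by simp))
  have hφint : Integrable φ := integrable_finsetSum _ (fun j _ => hφi j)
  have hφnn : ∀ t, 0 ≤ φ t := fun t => Finset.sum_nonneg (fun j _ => Set.indicator_nonneg (fun _ _ => by positivity) t)
  have hφI : ∫ t, φ t = 54 * B * δ := by
    rw [hφ, integral_finsetSum _ (fun j _ => hφi j)]
    have : ∀ j ∈ Finset.range 3, ∫ t, (I j).indicator (fun _ : ℝ => 9 * B) t = 18 * B * δ := by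
      intro j _
      rw [integral_indicator_const _ measurableSet_Icc, Real.volume_real_Icc_of_le (by linarith), smul_eq_mul]
      ring
    rw [Finset.sum_congr rfl this]
    simp
    ring
  have hpt : ∀ t ∈ cell s k, |JV s e f t| ≤ φ t := by
    intro t ht
    by_cases hc : (2 : ℤ) ^ (e - 1) ∣ ci (s + e) t ∨ (2 : ℤ) ^ (e - 1) ∣ ci (s + e) t + 1
    · obtain ⟨m, hm⟩ := LJV_gr he hc
      obtain ⟨t1, t2⟩ := ht
      rw [div_le_iff₀ ps] at t1
      rw [lt_div_iff₀ ps] at t2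
      have hm2 : |(2 : ℝ) ^ (s + 1) * t - m| ≤ 1 / 2 := by
        have h1 : (2 : ℝ) ^ (s + 1) * t - m = 2 ^ (s + 1) * (t - (m : ℝ) / 2 ^ (s + 1)) := by field_simp
        rw [h1, abs_mul, abs_of_pos ps1]
        calc (2 : ℝ) ^ (s + 1) * |t - (m : ℝ) / 2 ^ (s + 1)| ≤ 2 ^ (s + 1) * (1 / 2 ^ (s + e)) := mul_le_mul_of_nonneg_left hm ps1.le
          _ ≤ 1 / 2 := by
            rw [mul_one_div, div_le_div_iff₀ pse (by norm_num)]
            have : (2 : ℝ) ^ (s + 1) * 2 = 2 ^ (s + 2) := by rw [← pow_succ]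
            rw [this, one_mul]
            exact pow_le_pow_right₀ (by norm_num) (by omega)
      have hm3 := abs_le.1 hm2
      have h2t : (2 : ℝ) ^ (s + 1) * t = 2 * (t * 2 ^ s) := by rw [pow_succ]; ring
      rw [h2t] at hm3
      have l1 : (2 * k - 1 : ℝ) < m := by linarith [hm3.1, hm3.2]
      have l2 : (m : ℝ) < 2 * k + 3 := by linarith [hm3.1, hm3.2]
      have l1' : 2 * k - 1 < m := by exact_mod_cast l1
      have l2' : m < 2 * k + 3 := by exact_mod_cast l2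
      obtain ⟨j, hj, hmj⟩ : ∃ j : ℕ, j < 3 ∧ m = 2 * k + j := ⟨(m - 2 * k).toNat, by omega, by omega⟩
      have hmem : t ∈ I j := by
        have h3 : (m : ℝ) = 2 * k + j := by rw [hmj]; push_cast; ring
        rw [h3] at hm
        have := abs_le.1 hm
        constructor <;> linarith [this.1, this.2]
      refine (hJB t).trans ?_
      have h4 : (I j).indicator (fun _ : ℝ => 9 * B) t ≤ φ t :=
        Finset.single_le_sum (f := fun j => (I j).indicator (fun _ : ℝ => 9 * B) t) (fun j _ => Set.indicator_nonneg (fun _ _ => by positivity) t) (Finset.mem_range.2 hj)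
      rw [Set.indicator_of_mem hmem] at h4
      exact h4
    · have : JV s e f t = 0 := by
        unfold JV; rw [if_neg hc]
      rw [this, abs_zero]
      exact hφnn t
  have hcm : MeasurableSet (cell s k) := measurableSet_Ico
  have hJa : Integrable (fun t => |JV s e f t|) := ((bB 1 _ hJ).2.2).abs
  have h1 : ∫ t in cell s k, |JV s e f t| ≤ 54 * B * δ := by
    rw [← hφI]
    exact (setIntegral_mono_on hJa.integrableOn hφint.integrableOn hcm hpt).trans (setIntegral_le_integral hφint (Eventually.of_forall hφnn))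
  have h2 := hLEB.1 s (JV s e f) x hJ
  refine h2.trans ?_
  refine (mul_le_mul_of_nonneg_left h1 (by positivity : (0 : ℝ) ≤ 4 * 2 ^ s)).trans (le_of_eq ?_)
  rw [hδ, pow_add]
  field_simp
  ring

theorem LJV (hLBM : LBM_stmt) (hLEN : LEN_stmt) (hLEB : LEB_stmt) : LJV_stmt := by
  refine ⟨2592, by norm_num, ?_⟩
  intro s e f he hs hPA hS3
  have hS4 : S4 (JV s e f) := LJV_S4 hs he hS3
  have hPAJ : PA (s + e) (JV s e f) := LJV_PA he f
  have hBM : BM f := hLBM.2.2.1 (s + 1) f hPA (fun x hx => hS3 x (fun h => hx ⟨by linarith [h.1], by linarith [h.2]⟩))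
  have hJ : BM (JV s e f) := hLBM.2.2.1 (s + e) _ hPAJ (fun x hx => hS4 x (fun h => hx ⟨by linarith [h.1], by linarith [h.2]⟩))
  have pe : (0 : ℝ) < 2 ^ e := by positivity
  refine ⟨hJ, hPAJ, hS4, LJV_nn s e f, LJV_en he hPA hBM hLEN hLBM hJ, ?_⟩
  intro B hB
  have hB0 : 0 ≤ B := (abs_nonneg _).trans (hB 0)
  refine ⟨fun x => (LJV_Es he hPA hLEN hLEB hLBM hJ hB x).trans ?_, ?_⟩
  · rw [div_le_div_iff_of_pos_right pe]; linarith
  · intro q c x x' hSz hx
    have hK : 5 * B / 2 ^ e ≤ 2592 * B / 2 ^ e := by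
      rw [div_le_div_iff_of_pos_right pe]; linarith
    have hK0 : 0 ≤ 2592 * B / 2 ^ e := by positivity
    unfold Mop
    rcases Nat.eq_zero_or_pos q with hq | hq
    · subst hq; simpa using hK0
    · have hq' : (0 : ℝ) < q := by exact_mod_cast hq
      rw [← sub_div, ← Finset.sum_sub_distrib, abs_div, abs_of_pos hq', div_le_iff₀ hq', add_mul, div_mul_cancel₀ _ hq'.ne']
      refine (Finset.abs_sum_le_sum_abs _ _).trans ?_
      have hterm : ∀ i ∈ Finset.range q, |fr s (ev (c i) x) * f (ev (c i) x) - fr s (ev (c i) x') * f (ev (c i) x')| ≤ JV s e f (ev (c i) x') + 2592 * B / 2 ^ e := by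
        intro i hi
        have h1 := LJV_lip (c i) (hSz i (Finset.mem_range.1 hi)) x x'
        have h2 : |ev (c i) x - ev (c i) x'| ≤ 1 / 2 ^ (s + e) := by
          refine h1.trans ((mul_le_mul_of_nonneg_left hx (by norm_num)).trans ?_)
          rw [pow_succ]
          have : (0 : ℝ) < 1 / 2 ^ (s + e) := by positivity
          have e3 : (51 : ℝ) / 50 * (1 / (2 ^ (s + e) * 2)) = 51 / 100 * (1 / 2 ^ (s + e)) := by
            field_simp; norm_num
          rw [e3]; linarith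
        have h3 := LJV_pt he hPA hLEN hB (ev (c i) x) (ev (c i) x') h2
        linarith
      refine (Finset.sum_le_sum hterm).trans (le_of_eq ?_)
      rw [Finset.sum_add_distrib, Finset.sum_const, Finset.card_range, nsmul_eq_mul]
      ring

end Pool.Agent.helper90.DH
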